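import Pool.Agent.Lib.MP_a8a68c_co.Proj

/-! Universal balance of three partitions from identities between incidence matrices. -/

set_option autoImplicit false

namespace Pool.Agent.Lib.MP_a8a68c_co

open Matrix

variable {Ω : Type} [Fintype Ω] [DecidableEq Ω] {ι : Type} [Fintype ι] [DecidableEq ι]

omit [Fintype Ω] [DecidableEq Ω] in
lemma Y_mul_J (f : Ω → ι) (β : Type) : Y f * J ι β = J Ω β := by
  ext ω b
  simp [Matrix.mul_apply, Y, J]

omit [DecidableEq Ω] [Fintype ι] in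
lemma J_mul_Y (f : Ω → ι) (β : Type) (k : ℝ)
    (h : (Y f)ᵀ * Y f = k • (1 : Matrix ι ι ℝ)) : J β Ω * Y f = k • J β ι := by
  ext b a
  have h1 := congrFun (congrFun h a) a
  simp only [Matrix.mul_apply, Matrix.transpose_apply, Y, Matrix.of_apply, Matrix.smul_apply,
    Matrix.one_apply_eq, smul_eq_mul, mul_one] at h1
  simp only [Matrix.mul_apply, Y, J, Matrix.of_apply, Matrix.smul_apply, smul_eq_mul, mul_one,
    one_mul]
  rw [← h1]
  apply Finset.sum_congr rfl
  intro ω _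
  split_ifs <;> simp

lemma J_transpose (α β : Type) : (J α β)ᵀ = J β α := by
  ext; simp [J]

omit [DecidableEq Ω] in
lemma J_mul_J (α β : Type) : J α Ω * J Ω β = (Fintype.card Ω : ℝ) • J α β := by
  ext; simp [J, Matrix.mul_apply]

/-- the projection for one partition -/
lemma P_single (f : Ω → ι) (hf : Function.Surjective f) (k : ℝ) (hk : k ≠ 0)
    (h : (Y f)ᵀ * Y f = k • (1 : Matrix ι ι ℝ)) :
    P {Setoid.ker f} = (1 / k) • (Y f * (Y f)ᵀ) := by
  apply P_eq
  · simp [Matrix.transpose_smul, Matrix.transpose_mul]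
  · intro L hL
    rw [Set.mem_singleton_iff] at hL
    subst hL
    rw [X_ker f hf]
    have : ((1 / k) • (Y f * (Y f)ᵀ)) * Y f = Y f := by
      rw [Matrix.smul_mul, Matrix.mul_assoc, h, Matrix.mul_smul, Matrix.mul_one, smul_smul,
        one_div, inv_mul_cancel₀ hk, one_smul]
    calc (1 / k) • (Y f * (Y f)ᵀ) * (Y f).submatrix id (eqv f hf)
        = (((1 / k) • (Y f * (Y f)ᵀ)) * Y f).submatrix id (eqv f hf) := by
          ext i j; simp only [Matrix.mul_apply, Matrix.submatrix_apply, id]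
      _ = _ := by rw [this]
  · intro v
    have : ((1 / k) • (Y f * (Y f)ᵀ)) *ᵥ v = Y f *ᵥ ((1 / k) • ((Y f)ᵀ *ᵥ v)) := by
      rw [Matrix.smul_mulVec, Matrix.mulVec_smul, Matrix.mulVec_mulVec]
    rw [this, iSup_singleton]
    exact mem_V f hf _

/-- the projection onto the constants -/
lemma P_top [Nonempty Ω] : P ({⊤} : Set (Setoid Ω)) = (1 / (Fintype.card Ω : ℝ)) • J Ω Ω := by
  have h0 : Setoid.ker (fun _ : Ω => ()) = ⊤ := by
    ext x y; simp [Setoid.ker_def]
  have h1 : (Y (fun _ : Ω => ()))ᵀ * Y (fun _ : Ω => ()) = (Fintype.card Ω : ℝ) • 1 := by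
    ext a b; simp [Y, Matrix.mul_apply]
  have h2 := P_single (fun _ : Ω => ()) (fun b => ⟨Classical.arbitrary Ω, rfl⟩)
    (Fintype.card Ω : ℝ) (by exact_mod_cast Fintype.card_ne_zero) h1
  rw [h0] at h2
  rw [h2]
  congr 1
  ext a b; simp [Y, J, Matrix.mul_apply]

/-- the matrix of the projection for two partitions -/
noncomputable def pairM (f g : Ω → ι) (k n t : ℝ) : Matrix Ω Ω ℝ :=
  (1 / n) • J Ω Ω + t • ((1 / k) • (Y f * (Y f)ᵀ + Y g * (Y g)ᵀ)
    - (1 / (k * k)) • (Y f * (Y f)ᵀ * (Y g * (Y g)ᵀ) + Y g * (Y g)ᵀ * (Y f * (Y f)ᵀ)))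

omit [DecidableEq Ω] in
lemma pairM_comm (f g : Ω → ι) (k n t : ℝ) : pairM f g k n t = pairM g f k n t := by
  unfold pairM
  rw [add_comm (Y f * (Y f)ᵀ) (Y g * (Y g)ᵀ), add_comm (Y f * (Y f)ᵀ * (Y g * (Y g)ᵀ))]

omit [DecidableEq Ω] in
lemma pairM_transpose (f g : Ω → ι) (k n t : ℝ) : (pairM f g k n t)ᵀ = pairM f g k n t := by
  unfold pairM
  simp only [Matrix.transpose_add, Matrix.transpose_smul, Matrix.transpose_sub,
    Matrix.transpose_mul, Matrix.transpose_transpose, J_transpose]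
  rw [add_comm (Y g * (Y g)ᵀ * (Y f * (Y f)ᵀ))]

omit [DecidableEq Ω] in
lemma pairM_mul (f g : Ω → ι) (k n t a b : ℝ) (hk : k ≠ 0) (hn : n ≠ 0)
    (hf : (Y f)ᵀ * Y f = k • (1 : Matrix ι ι ℝ))
    (hfg : (Y f)ᵀ * Y g * ((Y g)ᵀ * Y f) = a • 1 + b • J ι ι)
    (h1 : t * (k * k - a) = k * k) (h2 : t * b * n = k * k * k) :
    pairM f g k n t * Y f = Y f := by
  have e1 : Y f * (Y f)ᵀ * Y f = k • Y f := by
    rw [Matrix.mul_assoc, hf, Matrix.mul_smul, Matrix.mul_one]
  have e2 : Y f * (Y f)ᵀ * (Y g * (Y g)ᵀ) * Y f = a • Y f + b • J Ω ι := by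
    calc Y f * (Y f)ᵀ * (Y g * (Y g)ᵀ) * Y f
        = Y f * ((Y f)ᵀ * Y g * ((Y g)ᵀ * Y f)) := by simp only [Matrix.mul_assoc]
      _ = a • Y f + b • J Ω ι := by
        rw [hfg, Matrix.mul_add, Matrix.mul_smul, Matrix.mul_one, Matrix.mul_smul, Y_mul_J]
  have e3 : Y g * (Y g)ᵀ * (Y f * (Y f)ᵀ) * Y f = k • (Y g * (Y g)ᵀ * Y f) := by
    rw [Matrix.mul_assoc (Y g * (Y g)ᵀ), e1, Matrix.mul_smul]
  have e4 : J Ω Ω * Y f = k • J Ω ι := J_mul_Y f Ω k hf
  unfold pairM
  rw [Matrix.add_mul, Matrix.smul_mul, e4, Matrix.smul_mul, Matrix.sub_mul, Matrix.smul_mul,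
    Matrix.smul_mul, Matrix.add_mul, Matrix.add_mul, e1, e2, e3]
  ext ω c
  simp only [Matrix.add_apply, Matrix.smul_apply, Matrix.sub_apply, smul_eq_mul]
  have e5 : J Ω ι ω c = 1 := rfl
  rw [e5]
  generalize Y f ω c = y
  generalize (Y g * (Y g)ᵀ * Y f) ω c = z
  have ha : t * a = t * k * k - k * k := by linear_combination -h1
  have : 1 / n * (k * 1) + t * (1 / k * (k * y + z) - 1 / (k * k) * (a * y + b * 1 + k * z)) - y
      = (y * (- t * a + t * k * k - k * k)) / (k * k) + (k * k * k - t * b * n) / (k * k * n) := by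
    field_simp
    ring
  have h5 : 1 / n * (k * 1) + t * (1 / k * (k * y + z) - 1 / (k * k) * (a * y + b * 1 + k * z)) - y
      = 0 := by
    rw [this, h2]
    have : (- t * a + t * k * k - k * k) = 0 := by linear_combination h1
    rw [this]; simp
  linarith

lemma P_pair (f g : Ω → ι) (hf : Function.Surjective f) (hg : Function.Surjective g)
    (k n t a b : ℝ) (hk : k ≠ 0) (hn : n ≠ 0)
    (hff : (Y f)ᵀ * Y f = k • (1 : Matrix ι ι ℝ))
    (hgg : (Y g)ᵀ * Y g = k • (1 : Matrix ι ι ℝ))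
    (hfg : (Y f)ᵀ * Y g * ((Y g)ᵀ * Y f) = a • 1 + b • J ι ι)
    (hgf : (Y g)ᵀ * Y f * ((Y f)ᵀ * Y g) = a • 1 + b • J ι ι)
    (h1 : t * (k * k - a) = k * k) (h2 : t * b * n = k * k * k) :
    P {Setoid.ker f, Setoid.ker g} = pairM f g k n t := by
  apply P_eq
  · exact pairM_transpose f g k n t
  · intro L hL
    rw [Set.mem_insert_iff, Set.mem_singleton_iff] at hL
    rcases hL with hL | hL
    · subst hL
      rw [X_ker f hf]
      calc pairM f g k n t * (Y f).submatrix id (eqv f hf)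
          = (pairM f g k n t * Y f).submatrix id (eqv f hf) := by
            ext i j; simp [Matrix.mul_apply]
        _ = _ := by rw [pairM_mul f g k n t a b hk hn hff hfg h1 h2]
    · subst hL
      rw [X_ker g hg, pairM_comm]
      calc pairM g f k n t * (Y g).submatrix id (eqv g hg)
          = (pairM g f k n t * Y g).submatrix id (eqv g hg) := by
            ext i j; simp [Matrix.mul_apply]
        _ = _ := by rw [pairM_mul g f k n t a b hk hn hgg hgf h1 h2]
  · intro v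
    rw [iSup_pair]
    have e : pairM f g k n t *ᵥ v
        = Y f *ᵥ (((1 / n) • J ι Ω + t • ((1 / k) • (Y f)ᵀ
            - (1 / (k * k)) • ((Y f)ᵀ * (Y g * (Y g)ᵀ)))) *ᵥ v)
          + Y g *ᵥ ((t • ((1 / k) • (Y g)ᵀ
            - (1 / (k * k)) • ((Y g)ᵀ * (Y f * (Y f)ᵀ)))) *ᵥ v) := by
      rw [Matrix.mulVec_mulVec, Matrix.mulVec_mulVec, ← Matrix.add_mulVec]
      congr 1
      unfold pairM
      simp only [Matrix.mul_add, Matrix.mul_sub, Matrix.mul_smul, Y_mul_J, ← Matrix.mul_assoc,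
        smul_add, smul_sub]
      abel
    rw [e]
    have e' : (WithLp.toLp 2 (Y f *ᵥ (((1 / n) • J ι Ω + t • ((1 / k) • (Y f)ᵀ
            - (1 / (k * k)) • ((Y f)ᵀ * (Y g * (Y g)ᵀ)))) *ᵥ v)
          + Y g *ᵥ ((t • ((1 / k) • (Y g)ᵀ
            - (1 / (k * k)) • ((Y g)ᵀ * (Y f * (Y f)ᵀ)))) *ᵥ v)) : EuclideanSpace ℝ Ω)
        = WithLp.toLp 2 (Y f *ᵥ (((1 / n) • J ι Ω + t • ((1 / k) • (Y f)ᵀ
            - (1 / (k * k)) • ((Y f)ᵀ * (Y g * (Y g)ᵀ)))) *ᵥ v))
          + WithLp.toLp 2 (Y g *ᵥ ((t • ((1 / k) • (Y g)ᵀ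
            - (1 / (k * k)) • ((Y g)ᵀ * (Y f * (Y f)ᵀ)))) *ᵥ v)) := rfl
    rw [e']
    exact Submodule.add_mem_sup (mem_V f hf _) (mem_V g hg _)

/-- The three conclusions of the balance condition. -/
def BalancedAt (F : Setoid Ω) (𝓛 : Set (Setoid Ω)) : Prop :=
  CompletelySymmetric ((X F)ᵀ * (1 - P 𝓛) * X F) ∧ (X F)ᵀ * (1 - P 𝓛) * X F ≠ 0 ∧
      ∃ μ : ℝ, 0 < μ ∧ μ < 1 ∧ Q {F} * Q 𝓛 * Q {F} = μ • Q {F}

lemma balancedAt_of [Nonempty Ω] (f : Ω → ι) (hf : Function.Surjective f)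
    (𝓛 : Set (Setoid Ω)) (M : Matrix Ω Ω ℝ) (hP : P 𝓛 = M)
    (k s r : ℝ) (hk : 0 < k)
    (hff : (Y f)ᵀ * Y f = k • (1 : Matrix ι ι ℝ))
    (hM : (Y f)ᵀ * M * Y f = s • 1 + r • J ι ι) (hMJ : M * J Ω Ω = J Ω Ω) (hsym : Mᵀ = M)
    (hs0 : 0 < s) (hsk : s < k) (hr : r * (Fintype.card Ω : ℝ) = k * (k - s))
    (hι : Nontrivial ι) : BalancedAt (Setoid.ker f) 𝓛 := by
  classical
  set n : ℝ := (Fintype.card Ω : ℝ) with hn
  have hn0 : n ≠ 0 := by rw [hn]; exact_mod_cast Fintype.card_ne_zero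
  have hk0 : k ≠ 0 := hk.ne'
  have key : (X (Setoid.ker f))ᵀ * (1 - P 𝓛) * X (Setoid.ker f)
      = ((k - s) • (1 : Matrix ι ι ℝ) + (-r) • J ι ι).submatrix (eqv f hf) (eqv f hf) := by
    rw [hP, X_ker f hf]
    have : (Y f)ᵀ * (1 - M) * Y f = (k - s) • (1 : Matrix ι ι ℝ) + (-r) • J ι ι := by
      rw [Matrix.mul_sub, Matrix.sub_mul, Matrix.mul_one, hff, hM]
      ext i j
      simp only [Matrix.sub_apply, Matrix.add_apply, Matrix.smul_apply, smul_eq_mul]
      ring
    rw [← this]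
    ext i j
    simp [Matrix.mul_apply]
  refine ⟨?_, ?_, ?_⟩
  · rw [key]
    refine ⟨k - s, -r, ?_⟩
    ext i j
    simp [J, Matrix.one_apply]
  · rw [key]
    intro h0
    obtain ⟨p, q, hpq⟩ := hι.exists_pair_ne
    have h1 := congrFun (congrFun h0 ((eqv f hf).symm p)) ((eqv f hf).symm p)
    have h2 := congrFun (congrFun h0 ((eqv f hf).symm p)) ((eqv f hf).symm q)
    simp [J] at h1
    simp [J, hpq] at h2
    linarith
  · refine ⟨s / k, by positivity, (div_lt_one hk).mpr hsk, ?_⟩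
    have hA : P {Setoid.ker f} = (1 / k) • (Y f * (Y f)ᵀ) := P_single f hf k hk0 hff
    unfold Q
    rw [hA, hP, P_top]
    rw [← hn]
    set A := Y f * (Y f)ᵀ with hAdef
    set E := J Ω Ω with hE
    have AE : A * E = k • E := by
      have := J_mul_Y f Ω k hff
      have h3 : (Y f)ᵀ * J Ω Ω = k • J ι Ω := by
        have h4 := congrArg Matrix.transpose this
        rw [Matrix.transpose_mul, Matrix.transpose_smul, J_transpose, J_transpose] at h4
        exact h4
      rw [hAdef, hE, Matrix.mul_assoc, h3, Matrix.mul_smul, Y_mul_J]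
    have At : Aᵀ = A := by rw [hAdef]; simp [Matrix.transpose_mul]
    have Et : Eᵀ = E := J_transpose _ _
    have EA : E * A = k • E := by
      have h4 := congrArg Matrix.transpose AE
      rw [Matrix.transpose_mul, Matrix.transpose_smul, At, Et] at h4
      exact h4
    have EE : E * E = n • E := J_mul_J Ω Ω
    have EM : E * M = E := by
      have h4 := congrArg Matrix.transpose hMJ
      rw [Matrix.transpose_mul, hsym, Et] at h4
      exact h4
    have AMA : A * M * A = s • A + r • E := by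
      calc A * M * A = Y f * ((Y f)ᵀ * M * Y f) * (Y f)ᵀ := by
            rw [hAdef]; simp only [Matrix.mul_assoc]
        _ = s • A + r • E := by
          rw [hM, Matrix.mul_add, Matrix.mul_smul, Matrix.mul_one, Matrix.mul_smul, Y_mul_J,
            Matrix.add_mul, Matrix.smul_mul, Matrix.smul_mul]
          congr 2
          have h4 := congrArg Matrix.transpose (Y_mul_J f Ω)
          rw [Matrix.transpose_mul, J_transpose, J_transpose] at h4
          exact h4
    have e0 : ((1 / k) • A - (1 / n) • E) * (M - (1 / n) • E) * ((1 / k) • A - (1 / n) • E)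
        = (1 / k * (1 / k)) • (A * M * A) - (1 / k * (1 / n)) • (A * (M * E))
          - (1 / k * (1 / n)) • ((E * M) * A) + (1 / n * (1 / n)) • ((E * M) * E)
          - (1 / n) • ((1 / k * (1 / k)) • (A * E * A) - (1 / k * (1 / n)) • (A * (E * E))
          - (1 / k * (1 / n)) • ((E * E) * A) + (1 / n * (1 / n)) • ((E * E) * E)) := by
      simp only [Matrix.sub_mul, Matrix.mul_sub, Matrix.smul_mul, Matrix.mul_smul,
        Matrix.mul_assoc, smul_sub, smul_add, smul_smul]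
      module
    rw [e0, AMA, hMJ, EM, EE, AE, EA]
    simp only [Matrix.smul_mul, Matrix.mul_smul, EE, EA, AE]
    ext i j
    simp only [Matrix.add_apply, Matrix.smul_apply, Matrix.sub_apply, smul_eq_mul]
    have e5 : E i j = 1 := rfl
    rw [e5]
    generalize A i j = z
    have hr' : r = k * (k - s) / n := by field_simp; linarith
    rw [hr']
    field_simp
    ring

end Pool.Agent.Lib.MP_a8a68c_co
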