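import Pool.Agent.Lib.MP_a8a68c_co.Data

/-! Kernel evaluation of the numerical checks. -/

set_option autoImplicit false

namespace Pool.Agent.Lib.MP_a8a68c_co

theorem c01 : allN 23 (fun a => allN 23 (fun b => Nat.beq (cF 0 1 a b) (m01 a b))) = true := by
  decide +kernel

theorem c02 : allN 23 (fun a => allN 23 (fun b => Nat.beq (cF 0 2 a b) (m02 a b))) = true := by
  decide +kernel

theorem c12 : allN 23 (fun a => allN 23 (fun b => Nat.beq (cF 1 2 a b) (m12 a b))) = true := by
  decide +kernel

theorem cself : allN 3 (fun i => allN 23 (fun a => Nat.beq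
    (sumN 253 (fun w => bif Nat.beq (fl i w) a then 1 else 0)) 11)) = true := by
  decide +kernel

theorem gself : allN 3 (fun i => allN 11 (fun a => Nat.beq
    (sumN 253 (fun w => bif Nat.beq (gl i w) a then 1 else 0)) 23)) = true := by
  decide +kernel

theorem cgg : allN 3 (fun i => allN 3 (fun j => allN 11 (fun a => allN 11 (fun b =>
    Nat.beq i j || Nat.beq (cG i j a b) (bif Nat.beq a b then 3 else 2))))) = true := by
  decide +kernel

theorem cinv : allN 3 (fun i => allN 3 (fun j => allN 23 (fun a => allN 11 (fun b =>
    Nat.blt (iv i j (11 * a + b)) 253 && (Nat.beq (fl i (iv i j (11 * a + b))) a &&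
      Nat.beq (gl j (iv i j (11 * a + b))) b))))) = true := by
  decide +kernel

theorem p01 : allN 23 (fun a => allN 23 (fun b => Nat.beq (sumN 23 (fun c => m01 a c * m01 b c))
    (bif Nat.beq a b then 11 else 5))) = true := by
  decide +kernel

theorem p10 : allN 23 (fun a => allN 23 (fun b => Nat.beq (sumN 23 (fun c => m01 c a * m01 c b))
    (bif Nat.beq a b then 11 else 5))) = true := by
  decide +kernel

theorem p02 : allN 23 (fun a => allN 23 (fun b => Nat.beq (sumN 23 (fun c => m02 a c * m02 b c))
    (bif Nat.beq a b then 11 else 5))) = true := by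
  decide +kernel

theorem p20 : allN 23 (fun a => allN 23 (fun b => Nat.beq (sumN 23 (fun c => m02 c a * m02 c b))
    (bif Nat.beq a b then 11 else 5))) = true := by
  decide +kernel

theorem p12 : allN 23 (fun a => allN 23 (fun b => Nat.beq (sumN 23 (fun c => m12 a c * m12 b c))
    (bif Nat.beq a b then 11 else 5))) = true := by
  decide +kernel

theorem p21 : allN 23 (fun a => allN 23 (fun b => Nat.beq (sumN 23 (fun c => m12 c a * m12 c b))
    (bif Nat.beq a b then 11 else 5))) = true := by
  decide +kernel

theorem qA : allN 23 (fun a => allN 23 (fun b => Nat.beq (sumN 23 (fun c => m01 a c * m12 c b))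
    (tA a b))) = true := by
  decide +kernel

theorem qB : allN 23 (fun a => allN 23 (fun b => Nat.beq (sumN 23 (fun c => m12 a c * m02 b c))
    (tB a b))) = true := by
  decide +kernel

theorem t0 : allN 23 (fun a => allN 23 (fun b => Nat.beq
    (sumN 23 (fun c => tA a c * m02 b c) + sumN 23 (fun c => tA b c * m02 a c))
    (bif Nat.beq a b then 132 else 115))) = true := by
  decide +kernel

theorem t2 : allN 23 (fun a => allN 23 (fun b => Nat.beq
    (sumN 23 (fun c => m02 c a * tA c b) + sumN 23 (fun c => m02 c b * tA c a))
    (bif Nat.beq a b then 132 else 115))) = true := by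
  decide +kernel

theorem t1 : allN 23 (fun a => allN 23 (fun b => Nat.beq
    (sumN 23 (fun c => tB a c * m01 c b) + sumN 23 (fun c => tB b c * m01 c a))
    (bif Nat.beq a b then 132 else 115))) = true := by
  decide +kernel

end Pool.Agent.Lib.MP_a8a68c_co
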