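import Mathlib

/-!
Definitions for Youden-type designs, following the wording of the problem file.

A partition of the finite set `Ω` is a `Setoid Ω`; its parts are the elements of `Quotient F`,
and the part of a point `ω` is `Quotient.mk F ω`.
-/

set_option autoImplicit false

namespace Pool.Agent.Lib.MP_a8a68c_co

open Matrix

section

variable {Ω : Type} [Fintype Ω] [DecidableEq Ω]

open scoped Classical in
/-- The `Ω × F` incidence matrix `X_F` of the partition `F`. -/
noncomputable def X (F : Setoid Ω) : Matrix Ω (Quotient F) ℝ :=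
  Matrix.of fun ω p => if Quotient.mk F ω = p then 1 else 0

/-- The column space `V_F` of `X_F`, a subspace of the Euclidean space `ℝ^Ω`. -/
noncomputable def V (F : Setoid Ω) : Submodule ℝ (EuclideanSpace ℝ Ω) :=
  Submodule.span ℝ (Set.range fun p : Quotient F => WithLp.toLp 2 fun ω => X F ω p)

/-- `N_{FG} = X_Fᵀ X_G`. -/
noncomputable def N (F G : Setoid Ω) : Matrix (Quotient F) (Quotient G) ℝ := (X F)ᵀ * X G

/-- `P_𝓛`: the matrix of the orthogonal projection onto `∑_{L ∈ 𝓛} V_L`. -/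
noncomputable def P (𝓛 : Set (Setoid Ω)) : Matrix Ω Ω ℝ :=
  Matrix.toEuclideanLin.symm (Submodule.starProjection (⨆ L ∈ 𝓛, V L)).toLinearMap

/-- `Q_𝓛 = P_𝓛 - P_U`, where `U` is the partition with one part. -/
noncomputable def Q (𝓛 : Set (Setoid Ω)) : Matrix Ω Ω ℝ := P 𝓛 - P {⊤}

/-- The number of points in the part `p` of `F`. -/
noncomputable def partSize (F : Setoid Ω) (p : Quotient F) : ℕ :=
  Nat.card {ω : Ω // Quotient.mk F ω = p}

open scoped Classical in
/-- The mean `c` of the entries of `N_{FG}`. -/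
noncomputable def meanEntry (F G : Setoid Ω) : ℝ :=
  (∑ p : Quotient F, ∑ q : Quotient G, N F G p q) /
    ((Fintype.card (Quotient F) : ℝ) * (Fintype.card (Quotient G) : ℝ))

end

open scoped Classical in
/-- A square matrix is completely symmetric if it equals `aI + bJ`. -/
def CompletelySymmetric {ι : Type} (M : Matrix ι ι ℝ) : Prop :=
  ∃ a b : ℝ, M = a • (1 : Matrix ι ι ℝ) + b • Matrix.of fun _ _ => (1 : ℝ)

section

variable {Ω : Type} [Fintype Ω] [DecidableEq Ω]

/-- Universal balance of a set `𝓗` of partitions. -/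
structure UniversalBalance (𝓗 : Set (Setoid Ω)) : Prop where
  /-- each `F ∈ 𝓗` is uniform -/
  uniform : ∀ F ∈ 𝓗, ∀ p q : Quotient F, partSize F p = partSize F q
  /-- the entries of `N_{FG}` are the mean entry rounded down or up -/
  rounded : ∀ F ∈ 𝓗, ∀ G ∈ 𝓗, F ≠ G → ∀ (p : Quotient F) (q : Quotient G),
    N F G p q = (⌊meanEntry F G⌋ : ℝ) ∨ N F G p q = (⌈meanEntry F G⌉ : ℝ)
  /-- the balance condition for every `F ∈ 𝓗` and every nonempty `𝓛 ⊆ 𝓗 \ {F}` -/
  balanced : ∀ F ∈ 𝓗, ∀ 𝓛 : Set (Setoid Ω), 𝓛.Nonempty → 𝓛 ⊆ 𝓗 \ {F} →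
    CompletelySymmetric ((X F)ᵀ * (1 - P 𝓛) * X F) ∧ (X F)ᵀ * (1 - P 𝓛) * X F ≠ 0 ∧
      ∃ μ : ℝ, 0 < μ ∧ μ < 1 ∧ Q {F} * Q 𝓛 * Q {F} = μ • Q {F}

/-- An `n × m` Youden-type design on the point set `Ω`. -/
structure IsYoudenType (n m : ℕ) (𝓕 𝓖 : Set (Setoid Ω)) : Prop where
  one_le : 1 ≤ n
  lt : n < m
  card_points : Fintype.card Ω = n * m
  /-- every `F ∈ 𝓕` has `m` parts of size `n` -/
  parts_left : ∀ F ∈ 𝓕, Nat.card (Quotient F) = m ∧ ∀ p : Quotient F, partSize F p = n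
  /-- every `G ∈ 𝓖` has `n` parts of size `m` -/
  parts_right : ∀ G ∈ 𝓖, Nat.card (Quotient G) = n ∧ ∀ p : Quotient G, partSize G p = m
  /-- `F ⊥ G`: every part of `F` meets every part of `G` in exactly one point -/
  orthogonal : ∀ F ∈ 𝓕, ∀ G ∈ 𝓖, ∀ (p : Quotient F) (q : Quotient G),
    ∃! ω : Ω, Quotient.mk F ω = p ∧ Quotient.mk G ω = q
  balance_left : UniversalBalance 𝓕
  balance_right : UniversalBalance 𝓖

end

end Pool.Agent.Lib.MP_a8a68c_co
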