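import Pool.Agent.Lib.MP_a8a68c_co.Triple
import Pool.Agent.Lib.MP_a8a68c_co.Check

/-! The 11 x 23 design: assembling the checks. -/

set_option autoImplicit false

namespace Pool.Agent.Lib.MP_a8a68c_co

open Matrix

/-- the stages -/
def f (i : Fin 3) (w : Fin 253) : Fin 23 := ⟨fl i w, fl_lt i w⟩

/-- the layers -/
def g (i : Fin 3) (w : Fin 253) : Fin 11 := ⟨gl i w, gl_lt i w⟩

lemma f_eq_iff (i : Fin 3) (w : Fin 253) (a : Fin 23) : f i w = a ↔ fl i w = a := by
  unfold f; rw [Fin.ext_iff]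

lemma g_eq_iff (i : Fin 3) (w : Fin 253) (a : Fin 11) : g i w = a ↔ gl i w = a := by
  unfold g; rw [Fin.ext_iff]

lemma inv_spec (i j : Fin 3) (a : Fin 23) (b : Fin 11) :
    ∃ w : Fin 253, f i w = a ∧ g j w = b := by
  have h := (allN_iff _ _).mp cinv i i.2
  have h := (allN_iff _ _).mp h j j.2
  have h := (allN_iff _ _).mp h a a.2
  have h := (allN_iff _ _).mp h b b.2
  simp only [Bool.and_eq_true, Nat.beq_eq, Nat.blt_eq] at h
  refine ⟨⟨_, h.1⟩, ?_, ?_⟩
  · rw [f_eq_iff]; exact h.2.1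
  · rw [g_eq_iff]; exact h.2.2

lemma bij (i j : Fin 3) : Function.Bijective (fun w : Fin 253 => (f i w, g j w)) := by
  rw [Fintype.bijective_iff_surjective_and_card]
  refine ⟨?_, by simp⟩
  rintro ⟨a, b⟩
  obtain ⟨w, h1, h2⟩ := inv_spec i j a b
  exact ⟨w, by simp [h1, h2]⟩

lemma f_surj (i : Fin 3) : Function.Surjective (f i) := fun a => by
  obtain ⟨w, h1, _⟩ := inv_spec i 0 a 0
  exact ⟨w, h1⟩

lemma g_surj (i : Fin 3) : Function.Surjective (g i) := fun b => by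
  obtain ⟨w, _, h2⟩ := inv_spec 0 i 0 b
  exact ⟨w, h2⟩

lemma beq_dec (x y : ℕ) : Nat.beq x y = decide (x = y) := by
  rw [Bool.eq_iff_iff, Nat.beq_eq]; simp

lemma f_card (i : Fin 3) (a : Fin 23) : Nat.card {w : Fin 253 // f i w = a} = 11 := by
  have h := (allN_iff _ _).mp cself i i.2
  have h := (allN_iff _ _).mp h a a.2
  rw [Nat.beq_eq, sumN_eq_fin] at h
  rw [Nat.card_eq_fintype_card, Fintype.card_subtype, Finset.card_filter, ← h]
  apply Finset.sum_congr rfl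
  intro w _
  simp only [f_eq_iff]
  by_cases h1 : fl i w = a <;> simp [h1, beq_dec]

lemma g_card (i : Fin 3) (a : Fin 11) : Nat.card {w : Fin 253 // g i w = a} = 23 := by
  have h := (allN_iff _ _).mp gself i i.2
  have h := (allN_iff _ _).mp h a a.2
  rw [Nat.beq_eq, sumN_eq_fin] at h
  rw [Nat.card_eq_fintype_card, Fintype.card_subtype, Finset.card_filter, ← h]
  apply Finset.sum_congr rfl
  intro w _
  simp only [g_eq_iff]
  by_cases h1 : gl i w = a <;> simp [h1, beq_dec]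

lemma self_of_card {Ω ι : Type} [Fintype Ω] [DecidableEq ι] (f : Ω → ι) (k : ℕ)
    (h : ∀ a, Nat.card {w : Ω // f w = a} = k) :
    (Y f)ᵀ * Y f = (k : ℝ) • (1 : Matrix ι ι ℝ) := by
  ext a b
  simp only [Matrix.mul_apply, Matrix.transpose_apply, Y, Matrix.of_apply, Matrix.smul_apply,
    smul_eq_mul]
  by_cases hab : a = b
  · subst hab
    have : ∀ x : Ω, (if f x = a then (1:ℝ) else 0) * (if f x = a then 1 else 0)
        = if f x = a then 1 else 0 := by
      intro x; split_ifs <;> simp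
    simp only [this, Matrix.one_apply_eq, mul_one]
    rw [Finset.sum_ite, Finset.sum_const_zero, add_zero, Finset.sum_const, nsmul_eq_mul, mul_one,
      ← h a, Nat.card_eq_fintype_card, Fintype.card_subtype]
  · rw [Matrix.one_apply_ne hab, mul_zero]
    apply Finset.sum_eq_zero
    intro x _
    by_cases h1 : f x = a
    · have h2 : f x ≠ b := fun e => hab (h1.symm.trans e)
      simp [h2]
    · simp [h1]

/-- real matrix with natural number entries -/
def R {α β : Type} (m : α → β → ℕ) : Matrix α β ℝ := Matrix.of fun a b => (m a b : ℝ)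

lemma R_transpose {α β : Type} (m : α → β → ℕ) : (R m)ᵀ = R (fun b a => m a b) := by
  ext; simp [R]

lemma R_mul {α β γ : Type} [Fintype β] (m : α → β → ℕ) (m' : β → γ → ℕ) :
    R m * R m' = R (fun a c => ∑ b, m a b * m' b c) := by
  ext a c
  simp [R, Matrix.mul_apply]

lemma YY_f (i j : Fin 3) (m : ℕ → ℕ → ℕ)
    (h : allN 23 (fun a => allN 23 (fun b => Nat.beq (cF i j a b) (m a b))) = true) :
    (Y (f i))ᵀ * Y (f j) = R (fun a b : Fin 23 => m a b) := by
  ext a b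
  have h := (allN_iff _ _).mp h a a.2
  have h := (allN_iff _ _).mp h b b.2
  rw [Nat.beq_eq] at h
  unfold cF at h
  rw [sumN_eq_fin] at h
  simp only [R, Matrix.of_apply]
  rw [← h]
  simp only [Matrix.mul_apply, Matrix.transpose_apply, Y, Matrix.of_apply, f_eq_iff]
  rw [Nat.cast_sum]
  apply Finset.sum_congr rfl
  intro w _
  by_cases h1 : fl i w = a <;> by_cases h2 : fl j w = b <;> simp [h1, h2, beq_dec]

lemma YY_f' (i j : Fin 3) (m : ℕ → ℕ → ℕ)
    (h : (Y (f i))ᵀ * Y (f j) = R (fun a b : Fin 23 => m a b)) :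
    (Y (f j))ᵀ * Y (f i) = R (fun a b : Fin 23 => m b a) := by
  have h1 := congrArg Matrix.transpose h
  rw [Matrix.transpose_mul, Matrix.transpose_transpose, R_transpose] at h1
  exact h1

lemma y01 : (Y (f 0))ᵀ * Y (f 1) = R (fun a b : Fin 23 => m01 a b) := YY_f 0 1 m01 c01
lemma y02 : (Y (f 0))ᵀ * Y (f 2) = R (fun a b : Fin 23 => m02 a b) := YY_f 0 2 m02 c02
lemma y12 : (Y (f 1))ᵀ * Y (f 2) = R (fun a b : Fin 23 => m12 a b) := YY_f 1 2 m12 c12
lemma y10 : (Y (f 1))ᵀ * Y (f 0) = R (fun a b : Fin 23 => m01 b a) := YY_f' 0 1 m01 y01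
lemma y20 : (Y (f 2))ᵀ * Y (f 0) = R (fun a b : Fin 23 => m02 b a) := YY_f' 0 2 m02 y02
lemma y21 : (Y (f 2))ᵀ * Y (f 1) = R (fun a b : Fin 23 => m12 b a) := YY_f' 1 2 m12 y12

lemma check_pair (m m' : Fin 23 → Fin 23 → ℕ)
    (h : ∀ a b : Fin 23, ∑ c : Fin 23, m a c * m' c b = if a = b then 11 else 5) :
    R m * R m' = (6 : ℝ) • 1 + (5 : ℝ) • J (Fin 23) (Fin 23) := by
  rw [R_mul]
  ext a b
  simp only [R, Matrix.of_apply, h a b, Matrix.add_apply, Matrix.smul_apply, J, smul_eq_mul,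
    Matrix.one_apply]
  split_ifs <;> norm_num

lemma use_check (d o : ℕ) (F : ℕ → ℕ → ℕ)
    (h : allN 23 (fun a => allN 23 (fun b => Nat.beq (F a b) (bif Nat.beq a b then d else o)))
      = true) (a b : Fin 23) : F a b = if a = b then d else o := by
  have h := (allN_iff _ _).mp h a a.2
  have h := (allN_iff _ _).mp h b b.2
  rw [Nat.beq_eq] at h
  rw [h]
  by_cases hab : a = b
  · subst hab; simp
  · have : (a : ℕ) ≠ b := fun e => hab (Fin.ext e)
    rw [beq_dec, if_neg hab, decide_eq_false this]; rfl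

lemma pair01 : (Y (f 0))ᵀ * Y (f 1) * ((Y (f 1))ᵀ * Y (f 0))
    = (6 : ℝ) • 1 + (5 : ℝ) • J (Fin 23) (Fin 23) := by
  rw [y01, y10]; apply check_pair; intro a b
  rw [← use_check 11 5 _ p01 a b, sumN_eq_fin]
lemma pair10 : (Y (f 1))ᵀ * Y (f 0) * ((Y (f 0))ᵀ * Y (f 1))
    = (6 : ℝ) • 1 + (5 : ℝ) • J (Fin 23) (Fin 23) := by
  rw [y01, y10]; apply check_pair; intro a b
  rw [← use_check 11 5 _ p10 a b, sumN_eq_fin]
lemma pair02 : (Y (f 0))ᵀ * Y (f 2) * ((Y (f 2))ᵀ * Y (f 0))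
    = (6 : ℝ) • 1 + (5 : ℝ) • J (Fin 23) (Fin 23) := by
  rw [y02, y20]; apply check_pair; intro a b
  rw [← use_check 11 5 _ p02 a b, sumN_eq_fin]
lemma pair20 : (Y (f 2))ᵀ * Y (f 0) * ((Y (f 0))ᵀ * Y (f 2))
    = (6 : ℝ) • 1 + (5 : ℝ) • J (Fin 23) (Fin 23) := by
  rw [y02, y20]; apply check_pair; intro a b
  rw [← use_check 11 5 _ p20 a b, sumN_eq_fin]
lemma pair12 : (Y (f 1))ᵀ * Y (f 2) * ((Y (f 2))ᵀ * Y (f 1))
    = (6 : ℝ) • 1 + (5 : ℝ) • J (Fin 23) (Fin 23) := by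
  rw [y12, y21]; apply check_pair; intro a b
  rw [← use_check 11 5 _ p12 a b, sumN_eq_fin]
lemma pair21 : (Y (f 2))ᵀ * Y (f 1) * ((Y (f 1))ᵀ * Y (f 2))
    = (6 : ℝ) • 1 + (5 : ℝ) • J (Fin 23) (Fin 23) := by
  rw [y12, y21]; apply check_pair; intro a b
  rw [← use_check 11 5 _ p21 a b, sumN_eq_fin]

lemma mulA : R (fun a b : Fin 23 => m01 a b) * R (fun a b : Fin 23 => m12 a b)
    = R (fun a b : Fin 23 => tA a b) := by
  rw [R_mul]
  ext a b
  have h := (allN_iff _ _).mp qA a a.2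
  have h := (allN_iff _ _).mp h b b.2
  rw [Nat.beq_eq, sumN_eq_fin] at h
  simp only [R, Matrix.of_apply, h]

lemma mulB : R (fun a b : Fin 23 => m12 a b) * R (fun a b : Fin 23 => m02 b a)
    = R (fun a b : Fin 23 => tB a b) := by
  rw [R_mul]
  ext a b
  have h := (allN_iff _ _).mp qB a a.2
  have h := (allN_iff _ _).mp h b b.2
  rw [Nat.beq_eq, sumN_eq_fin] at h
  simp only [R, Matrix.of_apply, h]

lemma check_triple (S T : Matrix (Fin 23) (Fin 23) ℝ) (n : Fin 23 → Fin 23 → ℕ)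
    (hS : S = R n) (hT : T = Sᵀ)
    (h : ∀ a b : Fin 23, n a b + n b a = if a = b then 132 else 115) :
    S + T = (17 : ℝ) • 1 + (115 : ℝ) • J (Fin 23) (Fin 23) := by
  rw [hT, hS]
  ext a b
  have h1 : ((n a b + n b a : ℕ) : ℝ) = if a = b then 132 else 115 := by
    rw [h a b]; split_ifs <;> norm_num
  push_cast at h1
  simp only [R, Matrix.of_apply, Matrix.add_apply, Matrix.smul_apply, J, smul_eq_mul,
    Matrix.one_apply, Matrix.transpose_apply, h1]
  split_ifs <;> norm_num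

lemma triple012 : (Y (f 0))ᵀ * Y (f 1) * ((Y (f 1))ᵀ * Y (f 2)) * ((Y (f 2))ᵀ * Y (f 0))
    + (Y (f 0))ᵀ * Y (f 2) * ((Y (f 2))ᵀ * Y (f 1)) * ((Y (f 1))ᵀ * Y (f 0))
      = (17 : ℝ) • 1 + (115 : ℝ) • J (Fin 23) (Fin 23) := by
  apply check_triple _ _ (fun a b : Fin 23 => ∑ c : Fin 23, tA a c * m02 b c)
  · rw [y01, y12, y20, mulA, R_mul]
  · simp only [Matrix.transpose_mul, Matrix.transpose_transpose, Matrix.mul_assoc]
  · intro a b
    rw [← use_check 132 115 _ t0 a b, sumN_eq_fin, sumN_eq_fin]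

lemma triple120 : (Y (f 1))ᵀ * Y (f 2) * ((Y (f 2))ᵀ * Y (f 0)) * ((Y (f 0))ᵀ * Y (f 1))
    + (Y (f 1))ᵀ * Y (f 0) * ((Y (f 0))ᵀ * Y (f 2)) * ((Y (f 2))ᵀ * Y (f 1))
      = (17 : ℝ) • 1 + (115 : ℝ) • J (Fin 23) (Fin 23) := by
  apply check_triple _ _ (fun a b : Fin 23 => ∑ c : Fin 23, tB a c * m01 c b)
  · rw [y12, y20, y01, mulB, R_mul]
  · simp only [Matrix.transpose_mul, Matrix.transpose_transpose, Matrix.mul_assoc]
  · intro a b
    rw [← use_check 132 115 _ t1 a b, sumN_eq_fin, sumN_eq_fin]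

lemma triple201 : (Y (f 2))ᵀ * Y (f 0) * ((Y (f 0))ᵀ * Y (f 1)) * ((Y (f 1))ᵀ * Y (f 2))
    + (Y (f 2))ᵀ * Y (f 1) * ((Y (f 1))ᵀ * Y (f 0)) * ((Y (f 0))ᵀ * Y (f 2))
      = (17 : ℝ) • 1 + (115 : ℝ) • J (Fin 23) (Fin 23) := by
  apply check_triple _ _ (fun a b : Fin 23 => ∑ c : Fin 23, m02 c a * tA c b)
  · rw [y20, y01, y12, Matrix.mul_assoc, mulA, R_mul]
  · simp only [Matrix.transpose_mul, Matrix.transpose_transpose, Matrix.mul_assoc]
  · intro a b
    rw [← use_check 132 115 _ t2 a b, sumN_eq_fin, sumN_eq_fin]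

theorem dataF : TripleData f 11 6 5 17 115 where
  surj := f_surj
  self := fun i => self_of_card (f i) 11 (f_card i)
  pair := by
    intro i j hij
    have hc : ∀ i j : Fin 3, i ≠ j → (i = 0 ∧ j = 1) ∨ (i = 0 ∧ j = 2) ∨ (i = 1 ∧ j = 0) ∨
        (i = 1 ∧ j = 2) ∨ (i = 2 ∧ j = 0) ∨ (i = 2 ∧ j = 1) := by decide
    rcases hc i j hij with ⟨rfl, rfl⟩ | ⟨rfl, rfl⟩ | ⟨rfl, rfl⟩ | ⟨rfl, rfl⟩ | ⟨rfl, rfl⟩ |
      ⟨rfl, rfl⟩
    · exact pair01
    · exact pair02
    · exact pair10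
    · exact pair12
    · exact pair20
    · exact pair21
  triple := by
    intro i j l hij hil hjl
    have hc : ∀ i j l : Fin 3, i ≠ j → i ≠ l → j ≠ l →
        (i = 0 ∧ j = 1 ∧ l = 2) ∨ (i = 0 ∧ j = 2 ∧ l = 1) ∨ (i = 1 ∧ j = 2 ∧ l = 0) ∨
        (i = 1 ∧ j = 0 ∧ l = 2) ∨ (i = 2 ∧ j = 0 ∧ l = 1) ∨ (i = 2 ∧ j = 1 ∧ l = 0) := by
      decide
    rcases hc i j l hij hil hjl with ⟨rfl, rfl, rfl⟩ | ⟨rfl, rfl, rfl⟩ | ⟨rfl, rfl, rfl⟩ |
      ⟨rfl, rfl, rfl⟩ | ⟨rfl, rfl, rfl⟩ | ⟨rfl, rfl, rfl⟩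
    · exact triple012
    · rw [add_comm]; exact triple012
    · exact triple120
    · rw [add_comm]; exact triple120
    · exact triple201
    · rw [add_comm]; exact triple201

lemma gg (i j : Fin 3) (hij : i ≠ j) :
    (Y (g i))ᵀ * Y (g j) = 1 + (2 : ℝ) • J (Fin 11) (Fin 11) := by
  ext a b
  have h := (allN_iff _ _).mp cgg i i.2
  have h := (allN_iff _ _).mp h j j.2
  have h := (allN_iff _ _).mp h a a.2
  have h := (allN_iff _ _).mp h b b.2
  rw [Bool.or_eq_true, Nat.beq_eq, Nat.beq_eq] at h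
  have h := h.resolve_left (fun e => hij (Fin.ext e))
  unfold cG at h
  rw [sumN_eq_fin] at h
  have e : ((Y (g i))ᵀ * Y (g j)) a b
      = ((∑ w : Fin 253, (bif Nat.beq (gl i w) a && Nat.beq (gl j w) b then 1 else 0) : ℕ) : ℝ) := by
    simp only [Matrix.mul_apply, Matrix.transpose_apply, Y, Matrix.of_apply, g_eq_iff]
    rw [Nat.cast_sum]
    apply Finset.sum_congr rfl
    intro w _
    by_cases h1 : gl i w = a <;> by_cases h2 : gl j w = b <;> simp [h1, h2, beq_dec]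
  rw [e, h]
  simp only [Matrix.add_apply, Matrix.smul_apply, J, smul_eq_mul, Matrix.of_apply,
    Matrix.one_apply]
  by_cases hab : a = b
  · subst hab; simp; norm_num
  · have : (a : ℕ) ≠ b := fun e => hab (Fin.ext e)
    rw [beq_dec, if_neg hab, decide_eq_false this]; simp

lemma JJ11 : J (Fin 11) (Fin 11) * J (Fin 11) (Fin 11) = (11 : ℝ) • J (Fin 11) (Fin 11) := by
  have := J_mul_J (Ω := Fin 11) (Fin 11) (Fin 11)
  simpa using this

theorem dataG : TripleData g 23 1 48 2 2212 where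
  surj := g_surj
  self := fun i => self_of_card (g i) 23 (g_card i)
  pair := by
    intro i j hij
    rw [gg i j hij, gg j i hij.symm]
    simp only [Matrix.add_mul, Matrix.mul_add, Matrix.one_mul, Matrix.mul_one, Matrix.smul_mul,
      Matrix.mul_smul, JJ11]
    module
  triple := by
    intro i j l hij hil hjl
    rw [gg i j hij, gg j l hjl, gg l i hil.symm, gg i l hil, gg l j hjl.symm, gg j i hij.symm]
    simp only [Matrix.add_mul, Matrix.mul_add, Matrix.one_mul, Matrix.mul_one, Matrix.smul_mul,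
      Matrix.mul_smul, JJ11]
    module

def vv : ℕ → ℕ
  | 0 => 0
  | 1 => 3
  | _ => 6

def ww : ℕ → ℕ
  | 0 => 1
  | 1 => 13
  | _ => 11

def vg : ℕ → ℕ
  | 0 => 0
  | 1 => 4
  | _ => 2

lemma distF : allN 3 (fun i => allN 3 (fun j => Nat.beq i j ||
    (Nat.beq (fl i (vv i)) (fl i (ww i)) && !Nat.beq (fl j (vv i)) (fl j (ww i))))) = true := by
  decide +kernel

lemma distG : allN 3 (fun i => allN 3 (fun j => Nat.beq i j ||
    (Nat.beq (gl i (vg i)) (gl i 11) && !Nat.beq (gl j (vg i)) (gl j 11)))) = true := by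
  decide +kernel

lemma vv_lt (i : ℕ) : vv i < 253 := by unfold vv; split <;> norm_num
lemma ww_lt (i : ℕ) : ww i < 253 := by unfold ww; split <;> norm_num
lemma vg_lt (i : ℕ) : vg i < 253 := by unfold vg; split <;> norm_num

lemma kerF_inj : Function.Injective (fun i => Setoid.ker (f i)) := by
  intro i j hij
  by_contra hne
  have h := (allN_iff _ _).mp distF i i.2
  have h := (allN_iff _ _).mp h j j.2
  rw [Bool.or_eq_true, Nat.beq_eq, Bool.and_eq_true, Nat.beq_eq, Bool.not_eq_true',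
    beq_dec, decide_eq_false_iff_not] at h
  obtain ⟨h1, h2⟩ := h.resolve_left (fun e => hne (Fin.ext e))
  have h3 : (Setoid.ker (f i)) ⟨vv i, vv_lt i⟩ ⟨ww i, ww_lt i⟩ := Fin.ext h1
  simp only at hij
  rw [hij] at h3
  exact h2 (congrArg Fin.val (Setoid.ker_def.mp h3))

lemma kerG_inj : Function.Injective (fun i => Setoid.ker (g i)) := by
  intro i j hij
  by_contra hne
  have h := (allN_iff _ _).mp distG i i.2
  have h := (allN_iff _ _).mp h j j.2
  rw [Bool.or_eq_true, Nat.beq_eq, Bool.and_eq_true, Nat.beq_eq, Bool.not_eq_true',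
    beq_dec, decide_eq_false_iff_not] at h
  obtain ⟨h1, h2⟩ := h.resolve_left (fun e => hne (Fin.ext e))
  have h3 : (Setoid.ker (g i)) ⟨vg i, vg_lt i⟩ ⟨11, by norm_num⟩ := Fin.ext h1
  simp only at hij
  rw [hij] at h3
  exact h2 (congrArg Fin.val (Setoid.ker_def.mp h3))

lemma m01_le (a b : ℕ) : m01 a b = 0 ∨ m01 a b = 1 := Nat.mod_two_eq_zero_or_one _
lemma m02_le (a b : ℕ) : m02 a b = 0 ∨ m02 a b = 1 := Nat.mod_two_eq_zero_or_one _
lemma m12_le (a b : ℕ) : m12 a b = 0 ∨ m12 a b = 1 := Nat.mod_two_eq_zero_or_one _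

lemma roundF (i j : Fin 3) (hij : i ≠ j) (p q : Fin 23) :
    ((Y (f i))ᵀ * Y (f j)) p q = 0 ∨ ((Y (f i))ᵀ * Y (f j)) p q = 1 := by
  have hc : ∀ i j : Fin 3, i ≠ j → (i = 0 ∧ j = 1) ∨ (i = 0 ∧ j = 2) ∨ (i = 1 ∧ j = 0) ∨
      (i = 1 ∧ j = 2) ∨ (i = 2 ∧ j = 0) ∨ (i = 2 ∧ j = 1) := by decide
  rcases hc i j hij with ⟨rfl, rfl⟩ | ⟨rfl, rfl⟩ | ⟨rfl, rfl⟩ | ⟨rfl, rfl⟩ | ⟨rfl, rfl⟩ |
      ⟨rfl, rfl⟩
  · rw [y01]; simp only [R, Matrix.of_apply]; exact_mod_cast m01_le _ _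
  · rw [y02]; simp only [R, Matrix.of_apply]; exact_mod_cast m02_le _ _
  · rw [y10]; simp only [R, Matrix.of_apply]; exact_mod_cast m01_le _ _
  · rw [y12]; simp only [R, Matrix.of_apply]; exact_mod_cast m12_le _ _
  · rw [y20]; simp only [R, Matrix.of_apply]; exact_mod_cast m02_le _ _
  · rw [y21]; simp only [R, Matrix.of_apply]; exact_mod_cast m12_le _ _

theorem balF : UniversalBalance (Set.range fun i => Setoid.ker (f i)) := by
  have hfl : ⌊(253 : ℝ) / (23 * 23)⌋ = 0 := by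
    rw [Int.floor_eq_iff]; norm_num
  have hce : ⌈(253 : ℝ) / (23 * 23)⌉ = 1 := by
    rw [Int.ceil_eq_iff]; norm_num
  apply universalBalance_triple f 11 6 5 17 115 (121 / 115) 1 11 dataF inferInstance
    (by norm_num) f_card (by norm_num) (by norm_num)
  · simp only [Fintype.card_fin]; norm_num
  · norm_num
  · norm_num
  · norm_num
  · norm_num
  · simp only [Fintype.card_fin]; norm_num
  · intro i j hij p q
    simp only [Fintype.card_fin]
    push_cast
    rw [hfl, hce]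
    have := roundF i j hij p q
    simpa using this

theorem balG : UniversalBalance (Set.range fun i => Setoid.ker (g i)) := by
  have hfl : ⌊(253 : ℝ) / (11 * 11)⌋ = 2 := by
    rw [Int.floor_eq_iff]; norm_num
  have hce : ⌈(253 : ℝ) / (11 * 11)⌉ = 3 := by
    rw [Int.ceil_eq_iff]; norm_num
  apply universalBalance_triple g 23 1 48 2 2212 (529 / 528) (1 / 12) 23 dataG inferInstance
    (by norm_num) g_card (by norm_num) (by norm_num)
  · simp only [Fintype.card_fin]; norm_num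
  · norm_num
  · norm_num
  · norm_num
  · norm_num
  · simp only [Fintype.card_fin]; norm_num
  · intro i j hij p q
    simp only [Fintype.card_fin]
    push_cast
    rw [hfl, hce, gg i j hij]
    simp only [Matrix.add_apply, Matrix.smul_apply, J, smul_eq_mul, Matrix.of_apply,
      Matrix.one_apply]
    by_cases h : p = q
    · right; rw [if_pos h]; norm_num
    · left; rw [if_neg h]; norm_num

theorem design : IsYoudenType 11 23 (Set.range fun i => Setoid.ker (f i))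
    (Set.range fun i => Setoid.ker (g i)) where
  one_le := by norm_num
  lt := by norm_num
  card_points := by simp
  parts_left := by
    rintro _ ⟨i, rfl⟩
    refine ⟨by rw [Nat.card_congr (eqv (f i) (f_surj i))]; simp, ?_⟩
    intro p
    rw [← f_card i (eqv (f i) (f_surj i) p)]
    unfold partSize
    apply Nat.card_congr
    apply Equiv.subtypeEquivRight
    intro ω
    rw [← eqv_mk (f i) (f_surj i) ω]
    exact ((eqv (f i) (f_surj i)).apply_eq_iff_eq).symm
  parts_right := by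
    rintro _ ⟨i, rfl⟩
    refine ⟨by rw [Nat.card_congr (eqv (g i) (g_surj i))]; simp, ?_⟩
    intro p
    rw [← g_card i (eqv (g i) (g_surj i) p)]
    unfold partSize
    apply Nat.card_congr
    apply Equiv.subtypeEquivRight
    intro ω
    rw [← eqv_mk (g i) (g_surj i) ω]
    exact ((eqv (g i) (g_surj i)).apply_eq_iff_eq).symm
  orthogonal := by
    rintro _ ⟨i, rfl⟩ _ ⟨j, rfl⟩ p q
    have h := (bij i j).existsUnique (eqv (f i) (f_surj i) p, eqv (g j) (g_surj j) q)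
    have e : ∀ ω : Fin 253, ((f i ω, g j ω) = (eqv (f i) (f_surj i) p, eqv (g j) (g_surj j) q)) ↔
        (Quotient.mk (Setoid.ker (f i)) ω = p ∧ Quotient.mk (Setoid.ker (g j)) ω = q) := by
      intro ω
      rw [Prod.mk.injEq, ← eqv_mk (f i) (f_surj i) ω, ← eqv_mk (g j) (g_surj j) ω,
        (eqv (f i) (f_surj i)).apply_eq_iff_eq, (eqv (g j) (g_surj j)).apply_eq_iff_eq]
    simpa only [e] using h
  balance_left := balF
  balance_right := balG

theorem ncardF : (Set.range fun i => Setoid.ker (f i)).ncard = 3 := by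
  rw [← Set.image_univ, Set.ncard_image_of_injective _ kerF_inj, Set.ncard_univ]
  simp

theorem ncardG : (Set.range fun i => Setoid.ker (g i)).ncard = 3 := by
  rw [← Set.image_univ, Set.ncard_image_of_injective _ kerG_inj, Set.ncard_univ]
  simp

end Pool.Agent.Lib.MP_a8a68c_co
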