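import Pool.Agent.Lib.MP_a8a68c_co.Defs

/-! Orthogonal projections attached to labellings of a finite set. -/

set_option autoImplicit false

namespace Pool.Agent.Lib.MP_a8a68c_co

open Matrix

variable {Ω : Type} [Fintype Ω] [DecidableEq Ω] {ι : Type} [Fintype ι] [DecidableEq ι]

/-- incidence matrix of a labelling -/
def Y (f : Ω → ι) : Matrix Ω ι ℝ := Matrix.of fun ω a => if f ω = a then 1 else 0

/-- all-ones matrix -/
def J (α β : Type) : Matrix α β ℝ := Matrix.of fun _ _ => 1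

noncomputable def eqv (f : Ω → ι) (hf : Function.Surjective f) :
    Quotient (Setoid.ker f) ≃ ι := Setoid.quotientKerEquivOfSurjective f hf

omit [Fintype Ω] [DecidableEq Ω] [Fintype ι] [DecidableEq ι] in
lemma eqv_mk (f : Ω → ι) (hf : Function.Surjective f) (ω : Ω) :
    eqv f hf (Quotient.mk (Setoid.ker f) ω) = f ω := rfl

omit [Fintype Ω] [DecidableEq Ω] [Fintype ι] in
lemma X_ker (f : Ω → ι) (hf : Function.Surjective f) :
    X (Setoid.ker f) = (Y f).submatrix id (eqv f hf) := by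
  classical
  ext ω p
  simp only [X, Y, Matrix.of_apply, Matrix.submatrix_apply, id]
  have : (Quotient.mk (Setoid.ker f) ω = p) ↔ (f ω = eqv f hf p) := by
    rw [← eqv_mk f hf ω]
    exact ((eqv f hf).apply_eq_iff_eq).symm
  simp only [this]

omit [Fintype Ω] [DecidableEq Ω] in
lemma mem_V (f : Ω → ι) (hf : Function.Surjective f) (w : ι → ℝ) :
    (WithLp.toLp 2 ((Y f) *ᵥ w) : EuclideanSpace ℝ Ω) ∈ V (Setoid.ker f) := by
  classical
  have h : (WithLp.toLp 2 ((Y f) *ᵥ w) : EuclideanSpace ℝ Ω)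
      = ∑ a : ι, w a • (WithLp.toLp 2 (fun ω => X (Setoid.ker f) ω ((eqv f hf).symm a)) :
          EuclideanSpace ℝ Ω) := by
    ext ω
    simp only [Matrix.mulVec, dotProduct, X_ker f hf, Matrix.submatrix_apply, id,
      Equiv.apply_symm_apply]
    rw [WithLp.ofLp_sum, Finset.sum_apply]
    apply Finset.sum_congr rfl
    intro a _
    simp [mul_comm]
  rw [h]
  apply Submodule.sum_mem
  intro a _
  apply Submodule.smul_mem
  exact Submodule.subset_span ⟨_, rfl⟩

lemma P_eq (𝓛 : Set (Setoid Ω)) (M : Matrix Ω Ω ℝ) (hsym : Mᵀ = M)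
    (hfix : ∀ L ∈ 𝓛, M * X L = X L)
    (hr : ∀ v : Ω → ℝ, (WithLp.toLp 2 (M *ᵥ v) : EuclideanSpace ℝ Ω) ∈ ⨆ L ∈ 𝓛, V L) :
    P 𝓛 = M := by
  unfold P
  rw [LinearEquiv.symm_apply_eq]
  ext1 v
  change (Submodule.starProjection (⨆ L ∈ 𝓛, V L)) v = WithLp.toLp 2 (M *ᵥ (WithLp.ofLp v))
  apply Submodule.eq_starProjection_of_mem_of_inner_eq_zero (hr _)
  set u : EuclideanSpace ℝ Ω := v - WithLp.toLp 2 (M *ᵥ (WithLp.ofLp v)) with hu
  suffices h : (⨆ L ∈ 𝓛, V L) ≤ (ℝ ∙ u)ᗮ by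
    intro w hw
    have := h hw
    rw [Submodule.mem_orthogonal_singleton_iff_inner_right] at this
    exact this
  apply iSup₂_le
  intro L hL
  unfold V
  rw [Submodule.span_le]
  rintro _ ⟨p, rfl⟩
  rw [SetLike.mem_coe, Submodule.mem_orthogonal_singleton_iff_inner_right]
  have h1 : M *ᵥ (fun ω => X L ω p) = fun ω => X L ω p := by
    have := hfix L hL
    ext ω
    have h2 := congrFun (congrFun this ω) p
    rw [Matrix.mul_apply] at h2
    simpa [Matrix.mulVec, dotProduct] using h2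
  have h3 : (fun ω => X L ω p) ⬝ᵥ (M *ᵥ (WithLp.ofLp v)) = (fun ω => X L ω p) ⬝ᵥ (WithLp.ofLp v) := by
    rw [Matrix.dotProduct_mulVec, ← Matrix.mulVec_transpose, hsym, h1]
  rw [EuclideanSpace.inner_eq_star_dotProduct]
  simp only [hu]
  have h4 : (WithLp.ofLp (v - WithLp.toLp 2 (M *ᵥ (WithLp.ofLp v)) : EuclideanSpace ℝ Ω))
      = WithLp.ofLp v - M *ᵥ (WithLp.ofLp v) := rfl
  rw [h4]
  simp only [star_trivial, dotProduct_sub]
  rw [h3, sub_self]

end Pool.Agent.Lib.MP_a8a68c_co
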