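import Pool.Agent.Lib.MP_a8a68c_co.Balance

/-! Universal balance of three labellings. -/

set_option autoImplicit false

namespace Pool.Agent.Lib.MP_a8a68c_co

open Matrix

variable {Ω : Type} [Fintype Ω] [DecidableEq Ω] {ι : Type} [Fintype ι] [DecidableEq ι]

/-- Matrix identities which imply universal balance. -/
structure TripleData (f : Fin 3 → Ω → ι) (k a b a' b' : ℝ) : Prop where
  surj : ∀ i, Function.Surjective (f i)
  self : ∀ i, (Y (f i))ᵀ * Y (f i) = k • (1 : Matrix ι ι ℝ)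
  pair : ∀ i j, i ≠ j → (Y (f i))ᵀ * Y (f j) * ((Y (f j))ᵀ * Y (f i)) = a • 1 + b • J ι ι
  triple : ∀ i j l, i ≠ j → i ≠ l → j ≠ l →
    (Y (f i))ᵀ * Y (f j) * ((Y (f j))ᵀ * Y (f l)) * ((Y (f l))ᵀ * Y (f i))
    + (Y (f i))ᵀ * Y (f l) * ((Y (f l))ᵀ * Y (f j)) * ((Y (f j))ᵀ * Y (f i))
      = a' • 1 + b' • J ι ι

lemma balancedAt_single [Nonempty Ω] (f : Fin 3 → Ω → ι) (k a b a' b' : ℝ)
    (h : TripleData f k a b a' b') (hι : Nontrivial ι) (hk : 0 < k) (ha : 0 < a) (hak : a < k * k)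
    (hb : b * (Fintype.card Ω : ℝ) = k * (k * k - a)) (i j : Fin 3) (hij : i ≠ j) :
    BalancedAt (Setoid.ker (f i)) {Setoid.ker (f j)} := by
  have hk0 : k ≠ 0 := hk.ne'
  have hP := P_single (f j) (h.surj j) k hk0 (h.self j)
  have h3 : (Y (f j))ᵀ * J Ω Ω = k • J ι Ω := by
    have h4 := congrArg Matrix.transpose (J_mul_Y (f j) Ω k (h.self j))
    rw [Matrix.transpose_mul, Matrix.transpose_smul, J_transpose, J_transpose] at h4
    exact h4
  apply balancedAt_of (f i) (h.surj i) _ _ hP k (a / k) (b / k) hk (h.self i) _ _ _ (by positivity)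
    _ _ hι
  · calc (Y (f i))ᵀ * ((1 / k) • (Y (f j) * (Y (f j))ᵀ)) * Y (f i)
        = (1 / k) • ((Y (f i))ᵀ * Y (f j) * ((Y (f j))ᵀ * Y (f i))) := by
          simp only [Matrix.mul_smul, Matrix.smul_mul, Matrix.mul_assoc]
      _ = (a / k) • 1 + (b / k) • J ι ι := by
          rw [h.pair i j hij, smul_add, smul_smul, smul_smul]
          congr 2 <;> ring
  · rw [Matrix.smul_mul, Matrix.mul_assoc, h3, Matrix.mul_smul, Y_mul_J, smul_smul, one_div,
      inv_mul_cancel₀ hk0, one_smul]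
  · simp [Matrix.transpose_smul, Matrix.transpose_mul]
  · rw [div_lt_iff₀ hk]; exact hak
  · have : b / k * (Fintype.card Ω : ℝ) = (b * (Fintype.card Ω : ℝ)) / k := by ring
    rw [this, hb]
    field_simp

lemma balancedAt_pair [Nonempty Ω] (f : Fin 3 → Ω → ι) (k a b a' b' t s : ℝ)
    (h : TripleData f k a b a' b') (hι : Nontrivial ι) (hk : 0 < k)
    (hb : b * (Fintype.card Ω : ℝ) = k * (k * k - a)) (ht : t * (k * k - a) = k * k)
    (hs : s = t * (2 * a / k - a' / (k * k))) (hs0 : 0 < s) (hsk : s < k)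
    (hr : (k * k / (Fintype.card Ω : ℝ) + t * (2 * b / k - b' / (k * k))) *
      (Fintype.card Ω : ℝ) = k * (k - s))
    (i j l : Fin 3) (hij : i ≠ j) (hil : i ≠ l) (hjl : j ≠ l) :
    BalancedAt (Setoid.ker (f i)) {Setoid.ker (f j), Setoid.ker (f l)} := by
  have hk0 : k ≠ 0 := hk.ne'
  have hn0 : (Fintype.card Ω : ℝ) ≠ 0 := by exact_mod_cast Fintype.card_ne_zero
  set n : ℝ := (Fintype.card Ω : ℝ) with hn
  have h2 : t * b * n = k * k * k := by
    calc t * b * n = t * (b * n) := by ring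
      _ = k * (t * (k * k - a)) := by rw [hb]; ring
      _ = k * k * k := by rw [ht]; ring
  have hP := P_pair (f j) (f l) (h.surj j) (h.surj l) k n t a b hk0 hn0 (h.self j) (h.self l)
    (h.pair j l hjl) (h.pair l j hjl.symm) ht h2
  apply balancedAt_of (f i) (h.surj i) _ _ hP k s (k * k / n + t * (2 * b / k - b' / (k * k)))
    hk (h.self i) _ _ (pairM_transpose _ _ _ _ _) hs0 hsk hr hι
  · have h3 : (Y (f i))ᵀ * J Ω Ω = k • J ι Ω := by
      have h4 := congrArg Matrix.transpose (J_mul_Y (f i) Ω k (h.self i))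
      rw [Matrix.transpose_mul, Matrix.transpose_smul, J_transpose, J_transpose] at h4
      exact h4
    have h5 : J ι Ω * Y (f i) = k • J ι ι := J_mul_Y (f i) ι k (h.self i)
    have e1 : (Y (f i))ᵀ * pairM (f j) (f l) k n t * Y (f i)
        = (1 / n) • ((Y (f i))ᵀ * J Ω Ω * Y (f i)) + t • ((1 / k) •
            ((Y (f i))ᵀ * Y (f j) * ((Y (f j))ᵀ * Y (f i))
             + (Y (f i))ᵀ * Y (f l) * ((Y (f l))ᵀ * Y (f i)))
          - (1 / (k * k)) • (
            (Y (f i))ᵀ * Y (f j) * ((Y (f j))ᵀ * Y (f l)) * ((Y (f l))ᵀ * Y (f i))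
            + (Y (f i))ᵀ * Y (f l) * ((Y (f l))ᵀ * Y (f j)) * ((Y (f j))ᵀ * Y (f i)))) := by
      unfold pairM
      simp only [Matrix.mul_add, Matrix.mul_sub, Matrix.mul_smul, Matrix.add_mul, Matrix.sub_mul,
        Matrix.smul_mul, Matrix.mul_assoc]
    rw [e1, h3, Matrix.smul_mul, h5, h.pair i j hij, h.pair i l hil, h.triple i j l hij hil hjl, hs]
    ext p q
    simp only [Matrix.add_apply, Matrix.smul_apply, Matrix.sub_apply, smul_eq_mul]
    have e5 : J ι ι p q = 1 := rfl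
    rw [e5]
    generalize (1 : Matrix ι ι ℝ) p q = z
    field_simp
    ring
  · calc pairM (f j) (f l) k n t * J Ω Ω
        = (pairM (f j) (f l) k n t * Y (f j)) * J ι Ω := by
          rw [Matrix.mul_assoc, Y_mul_J]
      _ = J Ω Ω := by
        rw [pairM_mul (f j) (f l) k n t a b hk0 hn0 (h.self j) (h.pair j l hjl) ht h2, Y_mul_J]

omit [DecidableEq Ω] in
lemma sum_N (F G : Setoid Ω) : by
    classical exact (∑ p : Quotient F, ∑ q : Quotient G, N F G p q) = (Fintype.card Ω : ℝ) := by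
  classical
  have : ∀ (p : Quotient F) (q : Quotient G), N F G p q = ∑ ω : Ω, X F ω p * X G ω q := by
    intro p q
    simp [N, Matrix.mul_apply]
  simp only [this]
  have h1 : ∀ p : Quotient F, ∑ q : Quotient G, ∑ ω : Ω, X F ω p * X G ω q
      = ∑ ω : Ω, X F ω p := by
    intro p
    rw [Finset.sum_comm]
    apply Finset.sum_congr rfl
    intro ω _
    rw [← Finset.mul_sum]
    simp [X]
  simp only [h1]
  rw [Finset.sum_comm]
  simp [X]

lemma universalBalance_triple [Nonempty Ω] (f : Fin 3 → Ω → ι) (k a b a' b' t s : ℝ) (k' : ℕ)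
    (h : TripleData f k a b a' b') (hι : Nontrivial ι) (hk : 0 < k)
    (hk' : ∀ i c, Nat.card {ω : Ω // f i ω = c} = k')
    (ha : 0 < a) (hak : a < k * k)
    (hb : b * (Fintype.card Ω : ℝ) = k * (k * k - a)) (ht : t * (k * k - a) = k * k)
    (hs : s = t * (2 * a / k - a' / (k * k))) (hs0 : 0 < s) (hsk : s < k)
    (hr : (k * k / (Fintype.card Ω : ℝ) + t * (2 * b / k - b' / (k * k))) *
      (Fintype.card Ω : ℝ) = k * (k - s))
    (hround : ∀ i j, i ≠ j → ∀ p q,
      ((Y (f i))ᵀ * Y (f j)) p q = (⌊(Fintype.card Ω : ℝ) / (Fintype.card ι * Fintype.card ι)⌋ : ℝ)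
      ∨ ((Y (f i))ᵀ * Y (f j)) p q
        = (⌈(Fintype.card Ω : ℝ) / (Fintype.card ι * Fintype.card ι)⌉ : ℝ)) :
    UniversalBalance (Set.range fun i => Setoid.ker (f i)) := by
  classical
  have hsize : ∀ i (p : Quotient (Setoid.ker (f i))), partSize (Setoid.ker (f i)) p = k' := by
    intro i p
    rw [← hk' i (eqv (f i) (h.surj i) p)]
    unfold partSize
    apply Nat.card_congr
    apply Equiv.subtypeEquivRight
    intro ω
    rw [← eqv_mk (f i) (h.surj i) ω]
    exact ((eqv (f i) (h.surj i)).apply_eq_iff_eq).symm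
  have hcard : ∀ i (inst : Fintype (Quotient (Setoid.ker (f i)))),
      @Fintype.card (Quotient (Setoid.ker (f i))) inst = Fintype.card ι :=
    fun i _ => Fintype.card_congr (eqv (f i) (h.surj i))
  refine ⟨?_, ?_, ?_⟩
  · rintro _ ⟨i, rfl⟩ p q
    rw [hsize i p, hsize i q]
  · rintro _ ⟨i, rfl⟩ _ ⟨j, rfl⟩ hij p q
    have hij' : i ≠ j := fun e => hij (by simp only [e])
    have hmean : meanEntry (Setoid.ker (f i)) (Setoid.ker (f j))
        = (Fintype.card Ω : ℝ) / (Fintype.card ι * Fintype.card ι) := by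
      unfold meanEntry
      have := sum_N (Setoid.ker (f i)) (Setoid.ker (f j))
      rw [this]
      congr 2
      · exact_mod_cast hcard i _
      · exact_mod_cast hcard j _
    have hN : N (Setoid.ker (f i)) (Setoid.ker (f j)) p q
        = ((Y (f i))ᵀ * Y (f j)) (eqv (f i) (h.surj i) p) (eqv (f j) (h.surj j) q) := by
      unfold N
      rw [X_ker _ (h.surj i), X_ker _ (h.surj j)]
      simp [Matrix.mul_apply]
    rw [hN, hmean]
    exact hround i j hij' _ _
  · rintro _ ⟨i, rfl⟩ 𝓛 hne hsub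
    change BalancedAt (Setoid.ker (f i)) 𝓛
    have hsub' : 𝓛 ⊆ {Setoid.ker (f (i + 1)), Setoid.ker (f (i + 2))} := by
      intro L hL
      obtain ⟨⟨j, rfl⟩, hj⟩ := hsub hL
      have hj' : j ≠ i := fun e => hj (by simp [e])
      have : j = i + 1 ∨ j = i + 2 := by
        have h0 : ∀ i j : Fin 3, j ≠ i → j = i + 1 ∨ j = i + 2 := by decide
        exact h0 i j hj'
      rcases this with e | e
      · left; simp [e]
      · right; simp [e]
    have h0 : ∀ i : Fin 3, i ≠ i + 1 ∧ i ≠ i + 2 ∧ i + 1 ≠ i + 2 := by decide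
    obtain ⟨h1, h2, h3⟩ := h0 i
    rw [Set.subset_pair_iff_eq] at hsub'
    rcases hsub' with e | e | e | e
    · exact absurd e hne.ne_empty
    · rw [e]; exact balancedAt_single f k a b a' b' h hι hk ha hak hb i _ h1
    · rw [e]; exact balancedAt_single f k a b a' b' h hι hk ha hak hb i _ h2
    · rw [e]
      exact balancedAt_pair f k a b a' b' t s h hι hk hb ht hs hs0 hsk hr i _ _ h1 h2 h3

end Pool.Agent.Lib.MP_a8a68c_co
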